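import Mathlib
import Pool.Agent.Q1.ExC
import Pool.Agent.Q1.Env

set_option autoImplicit false
open Finset

/-! # First returns

The visits of the path of `c0` to a set `R` of points, with the turning indices, depend only on the
first-return data of the step map (`Ret`). This is the substitution principle: a part of a network
may be replaced by another part with the same pairing of its ends and the same turnings. -/

namespace Pool.Agent.H80.Sweep

open Pool.Agent.Q1 Pool.Agent.H75.Perc

variable {D : Type*}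

/-- `Ret f d R x y t`: the path from `x` returns to `R` for the first time at `y`; its turning up to
`y` is `t`. -/
inductive Ret (f : D → D) (d : D → ℤ) (R : D → Prop) : D → D → ℤ → Prop
  | last {x y : D} {t : ℤ} (h1 : f x = y) (h2 : R y) (h3 : d x = t) : Ret f d R x y t
  | step {x y z : D} {t s : ℤ} (h1 : f x = z) (h2 : ¬ R z) (h3 : d x = s) (h4 : Ret f d R z y t) :
      Ret f d R x y (s + t)

lemma Ret.iter {f : D → D} {d : D → ℤ} {R : D → Prop} {x y : D} {t : ℤ} (h : Ret f d R x y t) :
    ∃ n : ℕ, 0 < n ∧ f^[n] x = y ∧ R y ∧ (∀ k, 0 < k → k < n → ¬ R (f^[k] x)) ∧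
      t = ∑ k ∈ range n, d (f^[k] x) := by
  induction h with
  | @last x y t h1 h2 h3 =>
    refine ⟨1, Nat.one_pos, ?_, h2, fun k h4 h5 => by omega, ?_⟩
    · simpa using h1
    · simp [h3]
  | @step x y z t s h1 h2 h3 h4 ih =>
    obtain ⟨n, hn, e1, e2, e3, e4⟩ := ih
    refine ⟨n + 1, Nat.succ_pos n, ?_, e2, ?_, ?_⟩
    · rw [Function.iterate_succ_apply, h1, e1]
    · intro k hk hk'
      obtain ⟨j, rfl⟩ : ∃ j, k = j + 1 := ⟨k - 1, by omega⟩
      rw [Function.iterate_succ_apply, h1]
      rcases Nat.eq_zero_or_pos j with h0 | h0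
      · subst h0; exact h2
      · exact e3 j h0 (by omega)
    · rw [Finset.sum_range_succ']
      simp only [Function.iterate_succ_apply, Function.iterate_zero, id, h1, h3]
      rw [e4]; ring

/-- `c` is visited with the turning index `k` -/
def Vis (f : D → D) (d : D → ℤ) (c0 : D) (k0 : ℤ) (c : D) (k : ℤ) : Prop :=
  ∃ i < Function.minimalPeriod f c0, f^[i] c0 = c ∧ KK f d c0 k0 i = k

/-- the increment across `c` -/
noncomputable def incG [DecidableEq D] (f : D → D) (d : D → ℤ) (c0 : D) (k0 : ℤ) (c : D) : ℂ :=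
  ∑ i ∈ range (Function.minimalPeriod f c0), if f^[i] c0 = c then ph (KK f d c0 k0 i) else 0

lemma incG_vis [DecidableEq D] {f : D → D} {d : D → ℤ} {c0 c : D} {k0 k : ℤ}
    (h : Vis f d c0 k0 c k) : incG f d c0 k0 c = ph k := by
  obtain ⟨i, hi, h1, h2⟩ := h
  unfold incG
  rw [Finset.sum_eq_single i]
  · rw [if_pos h1, h2]
  · intro j hj hji
    rw [if_neg]
    intro h3
    apply hji
    exact Function.iterate_injOn_Iio_minimalPeriod (f := f) (x := c0) (mem_range.1 hj) hi
      (h3.trans h1.symm)
  · intro h3; exact absurd (mem_range.2 hi) h3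

lemma incG_not_vis [DecidableEq D] {f : D → D} {d : D → ℤ} {c0 c : D} {k0 : ℤ}
    (h : ∀ k, ¬ Vis f d c0 k0 c k) : incG f d c0 k0 c = 0 := by
  unfold incG
  apply Finset.sum_eq_zero
  intro i hi
  rw [if_neg]
  intro h1
  exact h _ ⟨i, mem_range.1 hi, h1, rfl⟩

lemma KK_iter_add (f : D → D) (d : D → ℤ) (c0 : D) (k0 : ℤ) (p n : ℕ) :
    KK f d c0 k0 (p + n) = KK f d c0 k0 p + ∑ k ∈ range n, d (f^[k] (f^[p] c0)) := by
  unfold KK
  rw [Finset.sum_range_add, add_assoc]
  congr 2
  refine Finset.sum_congr rfl fun k _ => ?_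
  rw [← Function.iterate_add_apply, add_comm k p]

section
variable {f f' : D → D} {d d' : D → ℤ} {R : D → Prop} {c0 : D} {k0 : ℤ}

lemma match_aux (hc0 : R c0)
    (H : ∀ x, R x → ∃ y t, Ret f d R x y t ∧ Ret f' d' R x y t) :
    ∀ i, R (f^[i] c0) → ∃ j, f'^[j] c0 = f^[i] c0 ∧ KK f' d' c0 k0 j = KK f d c0 k0 i ∧
      (0 < i → 0 < j) ∧
      ∀ j', 0 < j' → j' ≤ j → R (f'^[j'] c0) → ∃ i', 0 < i' ∧ i' ≤ i ∧ f^[i'] c0 = f'^[j'] c0 := by
  intro i
  induction i using Nat.strong_induction_on with
  | _ i ih =>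
    intro hi
    rcases Nat.eq_zero_or_pos i with h0 | h0
    · subst h0
      exact ⟨0, rfl, by simp [KK], fun h => absurd h (lt_irrefl 0), fun j' h1 h2 => by omega⟩
    -- last visit before `i`
    obtain ⟨p, hp, hpR, hn⟩ : ∃ p < i, R (f^[p] c0) ∧ ∀ k, p < k → k < i → ¬ R (f^[k] c0) := by
      have : ∀ m, 0 < m → ∃ p < m, R (f^[p] c0) ∧ ∀ k, p < k → k < m → ¬ R (f^[k] c0) := by
        intro m
        induction m with
        | zero => intro h; omega
        | succ m ihm =>
          intro _
          by_cases hm : R (f^[m] c0)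
          · exact ⟨m, by omega, hm, fun k h1 h2 => by omega⟩
          · rcases Nat.eq_zero_or_pos m with h1 | h1
            · subst h1; exact absurd hc0 hm
            · obtain ⟨p, h2, h3, h4⟩ := ihm h1
              refine ⟨p, by omega, h3, fun k h5 h6 => ?_⟩
              rcases Nat.lt_or_ge k m with h7 | h7
              · exact h4 k h5 h7
              · have : k = m := by omega
                subst this; exact hm
      exact this i h0
    obtain ⟨j, hj1, hj2, hj3, hj4⟩ := ih p hp hpR
    obtain ⟨y, t, hr, hr'⟩ := H _ hpR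
    obtain ⟨n, n0, n1, n2, n3, n4⟩ := hr.iter
    obtain ⟨m, m0, m1, -, m3, m4⟩ := hr'.iter
    have hni : p + n = i := by
      have e1 : ∀ k, f^[k] (f^[p] c0) = f^[p + k] c0 := by
        intro k; rw [← Function.iterate_add_apply, add_comm]
      rcases lt_trichotomy (p + n) i with h1 | h1 | h1
      · exfalso
        apply hn (p + n) (by omega) h1
        rw [← e1, n1]; exact n2
      · exact h1
      · exfalso
        apply n3 (i - p) (by omega) (by omega)
        rw [e1, show p + (i - p) = i by omega]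
        exact hi
    have hy : f^[i] c0 = y := by
      rw [← hni, add_comm, Function.iterate_add_apply, n1]
    have hy' : f'^[j + m] c0 = y := by
      rw [add_comm, Function.iterate_add_apply, hj1, m1]
    refine ⟨j + m, by rw [hy', hy], ?_, fun _ => by omega, ?_⟩
    · rw [KK_iter_add, hj1, hj2, ← m4, n4, ← hni, KK_iter_add]
    · intro j' h1 h2 h3
      rcases Nat.lt_or_ge j j' with h4 | h4
      · have h5 : j' = j + m := by
          by_contra h6
          apply m3 (j' - j) (by omega) (by omega)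
          rw [← hj1, ← Function.iterate_add_apply, show j' - j + j = j' by omega]
          exact h3
        subst h5
        exact ⟨i, h0, le_rfl, by rw [hy', hy]⟩
      · obtain ⟨i', h5, h6, h7⟩ := hj4 j' h1 h4 h3
        exact ⟨i', h5, by omega, h7⟩

/-- the visits to `R` depend only on the first returns -/
lemma Vis.mono (hc0 : R c0) (H : ∀ x, R x → ∃ y t, Ret f d R x y t ∧ Ret f' d' R x y t)
    {c : D} (hc : R c) {k : ℤ} (h : Vis f d c0 k0 c k) : Vis f' d' c0 k0 c k := by
  obtain ⟨i, hi, h1, h2⟩ := h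
  have hP : 0 < Function.minimalPeriod f c0 := by omega
  have hper : f^[Function.minimalPeriod f c0] c0 = c0 := Function.iterate_minimalPeriod
  -- `f'` is periodic at `c0`
  have hP' : 0 < Function.minimalPeriod f' c0 := by
    obtain ⟨j, e1, -, e3, -⟩ := match_aux (k0 := k0) hc0 H (Function.minimalPeriod f c0)
      (by rw [hper]; exact hc0)
    rw [hper] at e1
    exact Function.IsPeriodicPt.minimalPeriod_pos (e3 hP) e1
  obtain ⟨j, e1, e2, -, e4⟩ := match_aux (k0 := k0) hc0 H i (by rw [h1]; exact hc)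
  refine ⟨j, ?_, by rw [e1, h1], by rw [e2, h2]⟩
  by_contra hcon
  push Not at hcon
  have hper' : f'^[Function.minimalPeriod f' c0] c0 = c0 := Function.iterate_minimalPeriod
  obtain ⟨i', g1, g2, g3⟩ := e4 _ hP' hcon (by rw [hper']; exact hc0)
  rw [hper'] at g3
  have g4 : i' = 0 := Function.iterate_injOn_Iio_minimalPeriod (f := f) (x := c0)
    (show i' < _ by omega) (show 0 < _ by omega) g3
  omega

/-- **Substitution principle.** -/
theorem incG_congr [DecidableEq D] (hc0 : R c0)
    (H : ∀ x, R x → ∃ y t, Ret f d R x y t ∧ Ret f' d' R x y t) {c : D} (hc : R c) :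
    incG f d c0 k0 c = incG f' d' c0 k0 c := by
  have H' : ∀ x, R x → ∃ y t, Ret f' d' R x y t ∧ Ret f d R x y t := fun x hx => by
    obtain ⟨y, t, h1, h2⟩ := H x hx
    exact ⟨y, t, h2, h1⟩
  by_cases h : ∃ k, Vis f d c0 k0 c k
  · obtain ⟨k, hk⟩ := h
    rw [incG_vis hk, incG_vis (hk.mono hc0 H hc)]
  · push Not at h
    rw [incG_not_vis h, incG_not_vis]
    intro k hk
    exact h k (hk.mono hc0 H' hc)

end

end Pool.Agent.H80.Sweep
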