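import Mathlib
import Pool.Agent.H80.Sweep.Ret

set_option autoImplicit false
set_option linter.unusedSectionVars false
open Finset

/-! # The local Yang–Baxter move for step maps

Two tiles on top of each other (lower tile: corners `a` left, `c` right, `s` bottom, `v` top; upper
tile: `b` left, `d` right, `t` top, `v` bottom) and a U-turn operator which exchanges the strands at
the pair `a, b` (left of the two tiles) or `c, d` (right of the two tiles). -/

namespace Pool.Agent.H80.Sweep

open Pool.Agent.Q1 Pool.Agent.H75.Perc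

variable {D : Type*} [DecidableEq D]

/-- the U-turn at the pair `p, q` -/
def swF (p q : D) (f : D → D) (x : D) : D := f (Equiv.swap p q x)

/-- turning after the U-turn at the pair `p, q`; the U-turn itself turns by `n` -/
def swT (p q : D) (n : ℤ) (d : D → ℤ) (x : D) : ℤ :=
  d (Equiv.swap p q x) + if x = p ∨ x = q then n else 0

lemma swF_left (p q : D) (f : D → D) : swF p q f p = f q := by
  unfold swF; rw [Equiv.swap_apply_left]

lemma swF_right (p q : D) (f : D → D) : swF p q f q = f p := by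
  unfold swF; rw [Equiv.swap_apply_right]

lemma swF_of_ne {p q : D} (f : D → D) {x : D} (h1 : x ≠ p) (h2 : x ≠ q) : swF p q f x = f x := by
  unfold swF; rw [Equiv.swap_apply_of_ne_of_ne h1 h2]

lemma swT_left (p q : D) (n : ℤ) (d : D → ℤ) : swT p q n d p = d q + n := by
  unfold swT; rw [Equiv.swap_apply_left, if_pos (Or.inl rfl)]

lemma swT_right (p q : D) (n : ℤ) (d : D → ℤ) : swT p q n d q = d p + n := by
  unfold swT; rw [Equiv.swap_apply_right, if_pos (Or.inr rfl)]

lemma swT_of_ne {p q : D} (n : ℤ) (d : D → ℤ) {x : D} (h1 : x ≠ p) (h2 : x ≠ q) :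
    swT p q n d x = d x := by
  unfold swT
  rw [Equiv.swap_apply_of_ne_of_ne h1 h2, if_neg (by rintro (h | h); exacts [h1 h, h2 h])]
  ring

lemma swF_comm (p q : D) (f : D → D) : swF p q f = swF q p f := by
  unfold swF; rw [Equiv.swap_comm]

lemma swT_comm (p q : D) (n : ℤ) (d : D → ℤ) : swT p q n d = swT q p n d := by
  unfold swT; funext x; rw [Equiv.swap_comm]; simp only [or_comm]

/-- two tiles on top of each other; `F l u` is the step map if the states of the lower and of the
upper tile are `l`, `u` (`true` = open); `a, c` are in front of the lower tile, `b, d` are behind the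
upper tile. -/
structure Sq (F : Bool → Bool → D → D) (T : Bool → Bool → D → ℤ) (a b c d t v s : D) : Prop where
  Fa : ∀ l u, F l u a = if l then s else v
  Ta : ∀ l u, T l u a = if l then -1 else 1
  Fc : ∀ l u, F l u c = if l then v else s
  Tc : ∀ l u, T l u c = if l then -1 else 1
  Fv : ∀ l u, F l u v = if u then d else b
  Tv : ∀ l u, T l u v = if u then -1 else 1
  Ft : ∀ l u, F l u t = if u then b else d
  Tt : ∀ l u, T l u t = if u then -1 else 1
  Fo : ∀ l u x, x ≠ a → x ≠ c → x ≠ v → x ≠ t → F l u x = F false false x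
  To : ∀ l u x, x ≠ a → x ≠ c → x ≠ v → x ≠ t → T l u x = T false false x
  Fr : ∀ x, x ≠ a → x ≠ c → x ≠ v → x ≠ t → F false false x ≠ b ∧ F false false x ≠ d ∧
    F false false x ≠ v
  ab : a ≠ b
  ac : a ≠ c
  ad : a ≠ d
  av : a ≠ v
  at' : a ≠ t
  bc : b ≠ c
  bd : b ≠ d
  bv : b ≠ v
  bt : b ≠ t
  cd : c ≠ d
  cv : c ≠ v
  ct : c ≠ t
  dv : d ≠ v
  dt : d ≠ t
  vt : v ≠ t
  sb : s ≠ b
  sd : s ≠ d
  sv : s ≠ v

namespace Sq

variable {F : Bool → Bool → D → D} {T : Bool → Bool → D → ℤ} {a b c d t v s : D}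

/-- the observed points -/
def R (b d v : D) (x : D) : Prop := x ≠ b ∧ x ≠ d ∧ x ≠ v

omit [DecidableEq D] in
lemma Ret.cast {f : D → D} {e : D → ℤ} {R : D → Prop} {x y : D} {k k' : ℤ}
    (h : Ret f e R x y k) (hk : k = k') : Ret f e R x y k' := hk ▸ h

section plain

variable (h : Sq F T a b c d t v s)
include h

omit [DecidableEq D] in
lemma nR_b : ¬ R b d v b := fun k => k.1 rfl
omit [DecidableEq D] in
lemma nR_d : ¬ R b d v d := fun k => k.2.1 rfl
omit [DecidableEq D] in
lemma nR_v : ¬ R b d v v := fun k => k.2.2 rfl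
omit [DecidableEq D] in
lemma R_s : R b d v s := ⟨h.sb, h.sd, h.sv⟩
omit [DecidableEq D] in
lemma Fb (l u : Bool) : F l u b = F false false b := h.Fo l u b h.ab.symm h.bc h.bv h.bt
omit [DecidableEq D] in
lemma Tb (l u : Bool) : T l u b = T false false b := h.To l u b h.ab.symm h.bc h.bv h.bt
omit [DecidableEq D] in
lemma Fd (l u : Bool) : F l u d = F false false d := h.Fo l u d h.ad.symm h.cd.symm h.dv h.dt
omit [DecidableEq D] in
lemma Td (l u : Bool) : T l u d = T false false d := h.To l u d h.ad.symm h.cd.symm h.dv h.dt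
omit [DecidableEq D] in
lemma R_Fb : R b d v (F false false b) := h.Fr b h.ab.symm h.bc h.bv h.bt
omit [DecidableEq D] in
lemma R_Fd : R b d v (F false false d) := h.Fr d h.ad.symm h.cd.symm h.dv h.dt

end plain

/-- general principle: only the three entrances have to be compared -/
lemma congr3 {F : Bool → Bool → D → D} {T : Bool → Bool → D → ℤ} {a b c d t v s : D}
    (h : Sq F T a b c d t v s) {f f' : D → D} {e e' : D → ℤ} {c0 : D} {k0 : ℤ}
    (hc0 : R b d v c0)
    (hf : ∀ x, x ≠ a → x ≠ b → x ≠ c → x ≠ d → x ≠ v → x ≠ t →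
      f x = F false false x ∧ e x = T false false x)
    (hf' : ∀ x, x ≠ a → x ≠ b → x ≠ c → x ≠ d → x ≠ v → x ≠ t →
      f' x = F false false x ∧ e' x = T false false x)
    (ha : ∃ y k, Ret f e (R b d v) a y k ∧ Ret f' e' (R b d v) a y k)
    (hc : ∃ y k, Ret f e (R b d v) c y k ∧ Ret f' e' (R b d v) c y k)
    (ht : ∃ y k, Ret f e (R b d v) t y k ∧ Ret f' e' (R b d v) t y k)
    {x : D} (hx : R b d v x) : incG f e c0 k0 x = incG f' e' c0 k0 x := by
  refine incG_congr hc0 (fun z hz => ?_) hx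
  by_cases h1 : z = a
  · subst h1; exact ha
  by_cases h2 : z = c
  · subst h2; exact hc
  by_cases h3 : z = t
  · subst h3; exact ht
  obtain ⟨k1, k2⟩ := hf z h1 hz.1 h2 hz.2.1 hz.2.2 h3
  obtain ⟨k3, k4⟩ := hf' z h1 hz.1 h2 hz.2.1 hz.2.2 h3
  have h4 : R b d v (F false false z) := h.Fr z h1 h2 hz.2.2 h3
  exact ⟨F false false z, T false false z, Ret.last k1 h4 k2, Ret.last k3 h4 k4⟩

variable (h : Sq F T a b c d t v s)
include h

/-- the maps without U-turn, with the U-turn on the left, with the U-turn on the right agree away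
from the six corners -/
lemma awayG (l u : Bool) (x : D) (h1 : x ≠ a) (_ : x ≠ b) (h3 : x ≠ c) (_ : x ≠ d)
    (h5 : x ≠ v) (h6 : x ≠ t) : F l u x = F false false x ∧ T l u x = T false false x :=
  ⟨h.Fo l u x h1 h3 h5 h6, h.To l u x h1 h3 h5 h6⟩

lemma awayB (l u : Bool) (x : D) (h1 : x ≠ a) (h2 : x ≠ b) (h3 : x ≠ c) (_ : x ≠ d)
    (h5 : x ≠ v) (h6 : x ≠ t) : swF a b (F l u) x = F false false x ∧
      swT a b 2 (T l u) x = T false false x := by
  rw [swF_of_ne _ h1 h2, swT_of_ne _ _ h1 h2]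
  exact ⟨h.Fo l u x h1 h3 h5 h6, h.To l u x h1 h3 h5 h6⟩

lemma awayA (l u : Bool) (x : D) (h1 : x ≠ a) (_ : x ≠ b) (h3 : x ≠ c) (h4 : x ≠ d)
    (h5 : x ≠ v) (h6 : x ≠ t) : swF c d (F l u) x = F false false x ∧
      swT c d (-2) (T l u) x = T false false x := by
  rw [swF_of_ne _ h3 h4, swT_of_ne _ _ h3 h4]
  exact ⟨h.Fo l u x h1 h3 h5 h6, h.To l u x h1 h3 h5 h6⟩

/-! paths without U-turn -/

lemma G00a : Ret (F false false) (T false false) (R b d v) a (F false false b)
    (2 + T false false b) := by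
  refine Ret.cast (Ret.step (h.Fa _ _) (by simpa using nR_v h) (h.Ta _ _)
    (Ret.step (h.Fv _ _) (by simpa using nR_b h) (h.Tv _ _)
    (Ret.last (h.Fb _ _) h.R_Fb (h.Tb _ _)))) ?_
  simp; ring

lemma G00c : Ret (F false false) (T false false) (R b d v) c s 1 :=
  Ret.last (by rw [h.Fc]; rfl) h.R_s (by rw [h.Tc]; rfl)

lemma G00t : Ret (F false false) (T false false) (R b d v) t (F false false d)
    (1 + T false false d) :=
  Ret.cast (Ret.step (h.Ft _ _) (by simpa using nR_d h) (h.Tt _ _)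
    (Ret.last (h.Fd _ _) h.R_Fd (h.Td _ _))) (by simp)

lemma G11a : Ret (F true true) (T true true) (R b d v) a s (-1) :=
  Ret.last (by rw [h.Fa]; rfl) h.R_s (by rw [h.Ta]; rfl)

lemma G11c : Ret (F true true) (T true true) (R b d v) c (F false false d)
    (-2 + T false false d) := by
  refine Ret.cast (Ret.step (h.Fc _ _) (by simpa using nR_v h) (h.Tc _ _)
    (Ret.step (h.Fv _ _) (by simpa using nR_d h) (h.Tv _ _)
    (Ret.last (h.Fd _ _) h.R_Fd (h.Td _ _)))) ?_
  simp; ring

lemma G11t : Ret (F true true) (T true true) (R b d v) t (F false false b)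
    (-1 + T false false b) :=
  Ret.cast (Ret.step (h.Ft _ _) (by simpa using nR_b h) (h.Tt _ _)
    (Ret.last (h.Fb _ _) h.R_Fb (h.Tb _ _))) (by simp)

/-! paths with the U-turn on the left -/

lemma fB (l u : Bool) : swF a b (F l u) a = F false false b ∧
    swT a b 2 (T l u) a = T false false b + 2 := by
  rw [swF_left, swT_left, h.Fb, h.Tb]; exact ⟨rfl, rfl⟩

lemma fBb (l u : Bool) : swF a b (F l u) b = (if l then s else v) ∧
    swT a b 2 (T l u) b = if l then 1 else 3 := by
  rw [swF_right, swT_right, h.Fa, h.Ta]; cases l <;> simp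

lemma fBc (l u : Bool) : swF a b (F l u) c = (if l then v else s) ∧
    swT a b 2 (T l u) c = if l then -1 else 1 := by
  rw [swF_of_ne _ h.ac.symm h.bc.symm, swT_of_ne _ _ h.ac.symm h.bc.symm, h.Fc, h.Tc]
  exact ⟨rfl, rfl⟩

lemma fBd (l u : Bool) : swF a b (F l u) d = F false false d ∧
    swT a b 2 (T l u) d = T false false d := by
  rw [swF_of_ne _ h.ad.symm h.bd.symm, swT_of_ne _ _ h.ad.symm h.bd.symm, h.Fd, h.Td]
  exact ⟨rfl, rfl⟩

lemma fBv (l u : Bool) : swF a b (F l u) v = (if u then d else b) ∧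
    swT a b 2 (T l u) v = if u then -1 else 1 := by
  rw [swF_of_ne _ h.av.symm h.bv.symm, swT_of_ne _ _ h.av.symm h.bv.symm, h.Fv, h.Tv]
  exact ⟨rfl, rfl⟩

lemma fBt (l u : Bool) : swF a b (F l u) t = (if u then b else d) ∧
    swT a b 2 (T l u) t = if u then -1 else 1 := by
  rw [swF_of_ne _ h.at'.symm h.bt.symm, swT_of_ne _ _ h.at'.symm h.bt.symm, h.Ft, h.Tt]
  exact ⟨rfl, rfl⟩

lemma Ba (l u : Bool) : Ret (swF a b (F l u)) (swT a b 2 (T l u)) (R b d v) a (F false false b)
    (2 + T false false b) :=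
  Ret.cast (Ret.last (h.fB l u).1 h.R_Fb (h.fB l u).2) (by ring)

/-- the closed lower tile sends `c` to `s` -/
lemma B0c (u : Bool) : Ret (swF a b (F false u)) (swT a b 2 (T false u)) (R b d v) c s 1 :=
  Ret.last (by rw [(h.fBc _ _).1]; rfl) h.R_s (by rw [(h.fBc _ _).2]; rfl)

lemma B00t : Ret (swF a b (F false false)) (swT a b 2 (T false false)) (R b d v) t
    (F false false d) (1 + T false false d) :=
  Ret.cast (Ret.step (h.fBt _ _).1 (by simpa using nR_d h) (h.fBt _ _).2
    (Ret.last (h.fBd _ _).1 h.R_Fd (h.fBd _ _).2)) (by simp)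

lemma B01t : Ret (swF a b (F false true)) (swT a b 2 (T false true)) (R b d v) t
    (F false false d) (1 + T false false d) := by
  refine Ret.cast (Ret.step (h.fBt _ _).1 (by simpa using nR_b h) (h.fBt _ _).2
    (Ret.step (h.fBb _ _).1 (by simpa using nR_v h) (h.fBb _ _).2
    (Ret.step (h.fBv _ _).1 (by simpa using nR_d h) (h.fBv _ _).2
    (Ret.last (h.fBd _ _).1 h.R_Fd (h.fBd _ _).2)))) ?_
  simp; ring

lemma B10c : Ret (swF a b (F true false)) (swT a b 2 (T true false)) (R b d v) c s 1 := by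
  refine Ret.cast (Ret.step (h.fBc _ _).1 (by simpa using nR_v h) (h.fBc _ _).2
    (Ret.step (h.fBv _ _).1 (by simpa using nR_b h) (h.fBv _ _).2
    (Ret.last (by simpa using (h.fBb true false).1) h.R_s (h.fBb _ _).2))) ?_
  simp

lemma B10t : Ret (swF a b (F true false)) (swT a b 2 (T true false)) (R b d v) t
    (F false false d) (1 + T false false d) :=
  Ret.cast (Ret.step (h.fBt _ _).1 (by simpa using nR_d h) (h.fBt _ _).2
    (Ret.last (h.fBd _ _).1 h.R_Fd (h.fBd _ _).2)) (by simp)

lemma B11c : Ret (swF a b (F true true)) (swT a b 2 (T true true)) (R b d v) c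
    (F false false d) (-2 + T false false d) := by
  refine Ret.cast (Ret.step (h.fBc _ _).1 (by simpa using nR_v h) (h.fBc _ _).2
    (Ret.step (h.fBv _ _).1 (by simpa using nR_d h) (h.fBv _ _).2
    (Ret.last (h.fBd _ _).1 h.R_Fd (h.fBd _ _).2))) ?_
  simp; ring

lemma B11t : Ret (swF a b (F true true)) (swT a b 2 (T true true)) (R b d v) t s 0 := by
  refine Ret.cast (Ret.step (h.fBt _ _).1 (by simpa using nR_b h) (h.fBt _ _).2
    (Ret.last (by simpa using (h.fBb true true).1) h.R_s (h.fBb _ _).2)) ?_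
  simp

/-! paths with the U-turn on the right -/

lemma fAa (l u : Bool) : swF c d (F l u) a = (if l then s else v) ∧
    swT c d (-2) (T l u) a = if l then -1 else 1 := by
  rw [swF_of_ne _ h.ac h.ad, swT_of_ne _ _ h.ac h.ad, h.Fa, h.Ta]
  exact ⟨rfl, rfl⟩

lemma fAb (l u : Bool) : swF c d (F l u) b = F false false b ∧
    swT c d (-2) (T l u) b = T false false b := by
  rw [swF_of_ne _ h.bc h.bd, swT_of_ne _ _ h.bc h.bd, h.Fb, h.Tb]
  exact ⟨rfl, rfl⟩

lemma fAc (l u : Bool) : swF c d (F l u) c = F false false d ∧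
    swT c d (-2) (T l u) c = T false false d - 2 := by
  rw [swF_left, swT_left, h.Fd, h.Td]; exact ⟨rfl, by ring⟩

lemma fAd (l u : Bool) : swF c d (F l u) d = (if l then v else s) ∧
    swT c d (-2) (T l u) d = if l then -3 else -1 := by
  rw [swF_right, swT_right, h.Fc, h.Tc]; cases l <;> simp

lemma fAv (l u : Bool) : swF c d (F l u) v = (if u then d else b) ∧
    swT c d (-2) (T l u) v = if u then -1 else 1 := by
  rw [swF_of_ne _ h.cv.symm h.dv.symm, swT_of_ne _ _ h.cv.symm h.dv.symm, h.Fv, h.Tv]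
  exact ⟨rfl, rfl⟩

lemma fAt (l u : Bool) : swF c d (F l u) t = (if u then b else d) ∧
    swT c d (-2) (T l u) t = if u then -1 else 1 := by
  rw [swF_of_ne _ h.ct.symm h.dt.symm, swT_of_ne _ _ h.ct.symm h.dt.symm, h.Ft, h.Tt]
  exact ⟨rfl, rfl⟩

lemma Ac (l u : Bool) : Ret (swF c d (F l u)) (swT c d (-2) (T l u)) (R b d v) c
    (F false false d) (-2 + T false false d) :=
  Ret.cast (Ret.last (h.fAc l u).1 h.R_Fd (h.fAc l u).2) (by ring)

/-- the open lower tile sends `a` to `s` -/
lemma A1a (u : Bool) : Ret (swF c d (F true u)) (swT c d (-2) (T true u)) (R b d v) a s (-1) :=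
  Ret.last (by rw [(h.fAa _ _).1]; rfl) h.R_s (by rw [(h.fAa _ _).2]; rfl)

lemma A00a : Ret (swF c d (F false false)) (swT c d (-2) (T false false)) (R b d v) a
    (F false false b) (2 + T false false b) := by
  refine Ret.cast (Ret.step (h.fAa _ _).1 (by simpa using nR_v h) (h.fAa _ _).2
    (Ret.step (h.fAv _ _).1 (by simpa using nR_b h) (h.fAv _ _).2
    (Ret.last (h.fAb _ _).1 h.R_Fb (h.fAb _ _).2))) ?_
  simp; ring

lemma A00t : Ret (swF c d (F false false)) (swT c d (-2) (T false false)) (R b d v) t s 0 := by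
  refine Ret.cast (Ret.step (h.fAt _ _).1 (by simpa using nR_d h) (h.fAt _ _).2
    (Ret.last (by simpa using (h.fAd false false).1) h.R_s (h.fAd _ _).2)) ?_
  simp

lemma A01a : Ret (swF c d (F false true)) (swT c d (-2) (T false true)) (R b d v) a s (-1) := by
  refine Ret.cast (Ret.step (h.fAa _ _).1 (by simpa using nR_v h) (h.fAa _ _).2
    (Ret.step (h.fAv _ _).1 (by simpa using nR_d h) (h.fAv _ _).2
    (Ret.last (by simpa using (h.fAd false true).1) h.R_s (h.fAd _ _).2))) ?_
  simp

/-- the open upper tile sends `t` to the left exit -/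
lemma A1t (l : Bool) : Ret (swF c d (F l true)) (swT c d (-2) (T l true)) (R b d v) t
    (F false false b) (-1 + T false false b) :=
  Ret.cast (Ret.step (h.fAt _ _).1 (by simpa using nR_b h) (h.fAt _ _).2
    (Ret.last (h.fAb _ _).1 h.R_Fb (h.fAb _ _).2)) (by simp)

lemma A10t : Ret (swF c d (F true false)) (swT c d (-2) (T true false)) (R b d v) t
    (F false false b) (-1 + T false false b) := by
  refine Ret.cast (Ret.step (h.fAt _ _).1 (by simpa using nR_d h) (h.fAt _ _).2
    (Ret.step (h.fAd _ _).1 (by simpa using nR_v h) (h.fAd _ _).2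
    (Ret.step (h.fAv _ _).1 (by simpa using nR_b h) (h.fAv _ _).2
    (Ret.last (h.fAb _ _).1 h.R_Fb (h.fAb _ _).2)))) ?_
  simp; ring

/-! the seven equalities -/

section eq

variable {c0 : D} {k0 : ℤ} (hc0 : R b d v c0) {x : D} (hx : R b d v x)
include hc0 hx

lemma B00 : incG (swF a b (F false false)) (swT a b 2 (T false false)) c0 k0 x =
    incG (F false false) (T false false) c0 k0 x :=
  h.congr3 hc0 (h.awayB _ _) (h.awayG _ _) ⟨_, _, h.Ba _ _, h.G00a⟩ ⟨_, _, h.B0c _, h.G00c⟩
    ⟨_, _, h.B00t, h.G00t⟩ hx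

lemma B01 : incG (swF a b (F false true)) (swT a b 2 (T false true)) c0 k0 x =
    incG (F false false) (T false false) c0 k0 x :=
  h.congr3 hc0 (h.awayB _ _) (h.awayG _ _) ⟨_, _, h.Ba _ _, h.G00a⟩ ⟨_, _, h.B0c _, h.G00c⟩
    ⟨_, _, h.B01t, h.G00t⟩ hx

lemma B10 : incG (swF a b (F true false)) (swT a b 2 (T true false)) c0 k0 x =
    incG (F false false) (T false false) c0 k0 x :=
  h.congr3 hc0 (h.awayB _ _) (h.awayG _ _) ⟨_, _, h.Ba _ _, h.G00a⟩ ⟨_, _, h.B10c, h.G00c⟩
    ⟨_, _, h.B10t, h.G00t⟩ hx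

lemma B11 : incG (swF a b (F true true)) (swT a b 2 (T true true)) c0 k0 x =
    incG (swF c d (F false false)) (swT c d (-2) (T false false)) c0 k0 x :=
  h.congr3 hc0 (h.awayB _ _) (h.awayA _ _) ⟨_, _, h.Ba _ _, h.A00a⟩ ⟨_, _, h.B11c, h.Ac _ _⟩
    ⟨_, _, h.B11t, h.A00t⟩ hx

lemma A01 : incG (swF c d (F false true)) (swT c d (-2) (T false true)) c0 k0 x =
    incG (F true true) (T true true) c0 k0 x :=
  h.congr3 hc0 (h.awayA _ _) (h.awayG _ _) ⟨_, _, h.A01a, h.G11a⟩ ⟨_, _, h.Ac _ _, h.G11c⟩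
    ⟨_, _, h.A1t _, h.G11t⟩ hx

lemma A10 : incG (swF c d (F true false)) (swT c d (-2) (T true false)) c0 k0 x =
    incG (F true true) (T true true) c0 k0 x :=
  h.congr3 hc0 (h.awayA _ _) (h.awayG _ _) ⟨_, _, h.A1a _, h.G11a⟩ ⟨_, _, h.Ac _ _, h.G11c⟩
    ⟨_, _, h.A10t, h.G11t⟩ hx

lemma A11 : incG (swF c d (F true true)) (swT c d (-2) (T true true)) c0 k0 x =
    incG (F true true) (T true true) c0 k0 x :=
  h.congr3 hc0 (h.awayA _ _) (h.awayG _ _) ⟨_, _, h.A1a _, h.G11a⟩ ⟨_, _, h.Ac _ _, h.G11c⟩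
    ⟨_, _, h.A1t _, h.G11t⟩ hx

end eq

/-- **Local Yang–Baxter identity.** `p, r` are the weights of an open lower/upper tile before,
`1 - r`, `1 - p` after the move, `β` is the weight of the U-turn. -/
theorem yb {c0 : D} {k0 : ℤ} (hc0 : R b d v c0) {x : D} (hx : R b d v x) (p r β : ℂ)
    (hβ : (1 - β) * (p + r - 1) = β * (1 - p * r)) :
    let G := fun l u => incG (F l u) (T l u) c0 k0 x
    let B := fun l u => incG (swF a b (F l u)) (swT a b 2 (T l u)) c0 k0 x
    let A := fun l u => incG (swF c d (F l u)) (swT c d (-2) (T l u)) c0 k0 x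
    (1 - p) * ((1 - r) * ((1 - β) * G false false + β * B false false) +
        r * ((1 - β) * G false true + β * B false true)) +
      p * ((1 - r) * ((1 - β) * G true false + β * B true false) +
        r * ((1 - β) * G true true + β * B true true)) =
    r * (p * ((1 - β) * G false false + β * A false false) +
        (1 - p) * ((1 - β) * G false true + β * A false true)) +
      (1 - r) * (p * ((1 - β) * G true false + β * A true false) +
        (1 - p) * ((1 - β) * G true true + β * A true true)) := by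
  intro G B A
  have e1 : B false false = G false false := h.B00 hc0 hx
  have e2 : B false true = G false false := h.B01 hc0 hx
  have e3 : B true false = G false false := h.B10 hc0 hx
  have e4 : B true true = A false false := h.B11 hc0 hx
  have e5 : A false true = G true true := h.A01 hc0 hx
  have e6 : A true false = G true true := h.A10 hc0 hx
  have e7 : A true true = G true true := h.A11 hc0 hx
  rw [e1, e2, e3, e4, e5, e6, e7]
  linear_combination (G true true - G false false) * hβ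

end Sq

end Pool.Agent.H80.Sweep
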